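import Mathlib

/-!
# Sylow subgroups of verbal subgroups of lower central words

Let `w` be a lower central word (for example the left-normed word `[x₁, ..., x_k]`, for any `k`), let
`G` be a finite group and `p` a prime.  We prove that every Sylow `p`-subgroup of `w(G)` is
generated by `w`-values.  No solubility assumption is made on `G`.

Proof.  Let `K` be the subgroup generated by the elements of order prime to `p`, so that `G / K` is
a `p`-group.  If `x` is an element of order prime to `p` which normalises a `p`-subgroup `Q`,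
then `[Q, x]` is generated by `w`-values in `Q` (`coprime_action`).  An Alperin type induction over
intersections of Sylow subgroups (`fusion`) shows that `a` and its conjugates in a Sylow subgroup
`P` of `K` agree modulo `[P, P]` times the subgroup `T` generated by the `w`-values in `P`; by the
focal subgroup theorem `P = [P, P] T`, so `P = T`.  The passage from `K` to `G` is easy.
-/

namespace Pool.Agent.Work.MP_8aaf67_al.Kept.LowerCentralWords

open Subgroup
open scoped commutatorElement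

/-- Multilinear commutator words (outer commutator words): a single variable, or `[u, v]` with
`u`, `v` multilinear commutator words in disjoint sets of variables. -/
inductive Word : Type
  | var : Word
  | comm : Word → Word → Word

/-- The set of `w`-values in the group `G`.  As the variables of `u` and `v` are disjoint, the
values of `[u, v]` are the elements `[a, b] = a⁻¹ b⁻¹ a b` with `a` a `u`-value, `b` a `v`-value. -/
def Word.values (G : Type*) [Group G] : Word → Set G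
  | .var => Set.univ
  | .comm u v => {g | ∃ a ∈ Word.values G u, ∃ b ∈ Word.values G v, g = a⁻¹ * b⁻¹ * a * b}

/-- The verbal subgroup `w(G)`, generated by all `w`-values. -/
def Word.verbal (G : Type*) [Group G] (w : Word) : Subgroup G :=
  Subgroup.closure (w.values G)

/-- Lower central words: a variable, and `[u, x]`, `[x, u]` where `u` is a lower central word and
`x` is a new variable.  In particular all left-normed words `[x₁, ..., x_k]`. -/
inductive IsLowerCentral : Word → Prop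
  | var : IsLowerCentral .var
  | left (u : Word) : IsLowerCentral u → IsLowerCentral (.comm u .var)
  | right (u : Word) : IsLowerCentral u → IsLowerCentral (.comm .var u)

variable {G : Type*} [Group G]

theorem values_map {K : Type*} [Group K] (f : K →* G) (w : Word) :
    ∀ a ∈ w.values K, f a ∈ w.values G := by
  induction w with
  | var => intro a _; exact Set.mem_univ _
  | comm u v hu hv =>
    rintro g ⟨a, ha, b, hb, rfl⟩
    exact ⟨f a, hu a ha, f b, hv b hb, by simp⟩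

theorem values_conj (w : Word) (g a : G) (ha : a ∈ w.values G) :
    g * a * g⁻¹ ∈ w.values G :=
  values_map (MulAut.conj g).toMonoidHom w a ha

/-- subgroup generated by the `w`-values that lie in `Q` -/
def T (w : Word) (Q : Subgroup G) : Subgroup G := closure ((Q : Set G) ∩ w.values G)

theorem T_le (w : Word) (Q : Subgroup G) : T w Q ≤ Q := by
  rw [T, closure_le]
  exact Set.inter_subset_left

theorem T_conj (w : Word) (Q R : Subgroup G) (n : G) (h : ∀ q ∈ Q, n * q * n⁻¹ ∈ R)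
    (t : G) (ht : t ∈ T w Q) : n * t * n⁻¹ ∈ T w R := by
  have h1 : (T w Q).map (MulAut.conj n).toMonoidHom ≤ T w R := by
    rw [T, MonoidHom.map_closure, T, closure_le]
    rintro _ ⟨q, ⟨hq, hqv⟩, rfl⟩
    exact subset_closure ⟨h q hq, values_conj w n q hqv⟩
  exact h1 ⟨t, ht, rfl⟩

theorem T_step (u w : Word) (hw : w = .comm u .var ∨ w = .comm .var u) (Q : Subgroup G) (x : G)
    (hx : ∀ q ∈ Q, x⁻¹ * q * x ∈ Q) (t : G) (ht : t ∈ T u Q) :
    t⁻¹ * (x⁻¹ * t * x) ∈ T w Q := by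
  have hle := T_le u Q
  have hnorm : ∀ q ∈ Q, ∀ s ∈ T w Q, q * s * q⁻¹ ∈ T w Q := fun q hq s hs =>
    T_conj w Q Q q (fun r hr => Q.mul_mem (Q.mul_mem hq hr) (Q.inv_mem hq)) s hs
  suffices h : t ∈ Q ∧ t⁻¹ * (x⁻¹ * t * x) ∈ T w Q from h.2
  rw [T] at ht
  induction ht using closure_induction with
  | mem t ht =>
    refine ⟨ht.1, ?_⟩
    have hQ : t⁻¹ * (x⁻¹ * t * x) ∈ Q := Q.mul_mem (Q.inv_mem ht.1) (hx t ht.1)
    rcases hw with rfl | rfl
    · exact subset_closure ⟨hQ, t, ht.2, x, Set.mem_univ _, by group⟩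
    · rw [← inv_mem_iff]
      refine subset_closure ⟨Q.inv_mem hQ, x, Set.mem_univ _, t, ht.2, by group⟩
  | one => simp [Q.one_mem, (T w Q).one_mem]
  | mul a b _ _ ha hb =>
    refine ⟨Q.mul_mem ha.1 hb.1, ?_⟩
    have e : (a * b)⁻¹ * (x⁻¹ * (a * b) * x) =
        (b⁻¹ * (a⁻¹ * (x⁻¹ * a * x)) * (b⁻¹)⁻¹) * (b⁻¹ * (x⁻¹ * b * x)) := by group
    rw [e]
    exact (T w Q).mul_mem (hnorm _ (Q.inv_mem hb.1) _ ha.2) hb.2
  | inv a _ ha =>
    refine ⟨Q.inv_mem ha.1, ?_⟩
    have e : (a⁻¹)⁻¹ * (x⁻¹ * a⁻¹ * x) = a * (a⁻¹ * (x⁻¹ * a * x))⁻¹ * a⁻¹ := by group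
    rw [e]
    exact hnorm _ ha.1 _ ((T w Q).inv_mem ha.2)

theorem pow_mul_aux (H : Subgroup G) (t c : G)
    (ht' : ∀ s ∈ H, t⁻¹ * s * t ∈ H) (hc : c ∈ H) (n : ℕ) : ∃ s ∈ H, (t * c) ^ n = t ^ n * s := by
  induction n with
  | zero => exact ⟨1, H.one_mem, by simp⟩
  | succ n ih =>
    obtain ⟨s, hs, e⟩ := ih
    refine ⟨t⁻¹ * s * t * c, H.mul_mem (ht' s hs) hc, ?_⟩
    rw [pow_succ, e, pow_succ]
    group

theorem coprime_action [Finite G] {p : ℕ} [Fact p.Prime] (w : Word) (hw : IsLowerCentral w)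
    (Q : Subgroup G) (hQ : IsPGroup p Q) (x : G) (hxp : (orderOf x).Coprime p)
    (hx : ∀ q ∈ Q, x⁻¹ * q * x ∈ Q) : ∀ a ∈ Q, a⁻¹ * (x⁻¹ * a * x) ∈ T w Q := by
  have key : ∀ u w : Word, (w = .comm u .var ∨ w = .comm .var u) →
      (∀ a ∈ Q, a⁻¹ * (x⁻¹ * a * x) ∈ T u Q) → ∀ a ∈ Q, a⁻¹ * (x⁻¹ * a * x) ∈ T w Q := by
    intro u w hw ih a ha
    set t := a⁻¹ * (x⁻¹ * a * x) with htdef
    have htT : t ∈ T u Q := ih a ha
    have htQ : t ∈ Q := T_le u Q htT
    have hc : t⁻¹ * (x⁻¹ * t * x) ∈ T w Q := T_step u w hw Q x hx t htT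
    have hnorm : ∀ q ∈ Q, ∀ s ∈ T w Q, q * s * q⁻¹ ∈ T w Q := fun q hq s hs =>
      T_conj w Q Q q (fun r hr => Q.mul_mem (Q.mul_mem hq hr) (Q.inv_mem hq)) s hs
    have hnx : ∀ s ∈ T w Q, x⁻¹ * s * x ∈ T w Q := by
      intro s hs
      have := T_conj w Q Q x⁻¹ (by simpa using hx) s hs
      simpa using this
    have hpow : ∀ n : ℕ, ∃ s ∈ T w Q, (x ^ n)⁻¹ * a * x ^ n = a * t ^ n * s := by
      intro n
      induction n with
      | zero => exact ⟨1, (T w Q).one_mem, by simp⟩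
      | succ n ihn =>
        obtain ⟨s, hs, e⟩ := ihn
        obtain ⟨s2, hs2, e2⟩ := pow_mul_aux (T w Q) t (t⁻¹ * (x⁻¹ * t * x))
          (fun s hs => by simpa using hnorm t⁻¹ (Q.inv_mem htQ) s hs) hc n
        refine ⟨s2 * (x⁻¹ * s * x), (T w Q).mul_mem hs2 (hnx s hs), ?_⟩
        have e3 : (x ^ (n + 1))⁻¹ * a * x ^ (n + 1) = x⁻¹ * ((x ^ n)⁻¹ * a * x ^ n) * x := by
          rw [pow_succ]; group
        have e4 : x⁻¹ * t ^ n * x = (t * (t⁻¹ * (x⁻¹ * t * x))) ^ n := by
          have h5 : t * (t⁻¹ * (x⁻¹ * t * x)) = x⁻¹ * t * x := by group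
          rw [h5]
          have h6 := conj_pow (i := n) (a := x⁻¹) (b := t)
          rw [inv_inv] at h6
          exact h6.symm
        have e5 : x⁻¹ * a * x = a * t := by rw [htdef]; group
        calc (x ^ (n + 1))⁻¹ * a * x ^ (n + 1) = x⁻¹ * ((x ^ n)⁻¹ * a * x ^ n) * x := e3
          _ = (x⁻¹ * a * x) * (x⁻¹ * t ^ n * x) * (x⁻¹ * s * x) := by rw [e]; group
          _ = (a * t) * (t ^ n * s2) * (x⁻¹ * s * x) := by rw [e4, e5, e2]
          _ = a * t ^ (n + 1) * (s2 * (x⁻¹ * s * x)) := by rw [pow_succ']; group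
    obtain ⟨s, hs, e⟩ := hpow (orderOf x)
    rw [pow_orderOf_eq_one] at e
    have h1 : t ^ orderOf x ∈ T w Q := by
      have : t ^ orderOf x = s⁻¹ := by
        have e' : a = a * (t ^ orderOf x * s) := by simpa [mul_assoc] using e
        have e'' : t ^ orderOf x * s = 1 := by
          have := mul_left_cancel (a := a) (b := 1) (c := t ^ orderOf x * s) (by simpa using e')
          exact this.symm
        exact eq_inv_of_mul_eq_one_left e''
      rw [this]
      exact (T w Q).inv_mem hs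
    have h2 : (orderOf x).Coprime (orderOf t) := by
      obtain ⟨k, hk⟩ := (IsPGroup.iff_orderOf.mp hQ) ⟨t, htQ⟩
      have hk' : orderOf t = p ^ k := by
        rw [← hk]
        exact (Subgroup.orderOf_mk t htQ).symm
      rw [hk']
      exact Nat.Coprime.pow_right k hxp
    obtain ⟨m, hm⟩ := exists_pow_eq_self_of_coprime h2
    rw [← hm]
    exact (T w Q).pow_mem h1 m
  induction hw with
  | var =>
    intro a ha
    exact subset_closure ⟨Q.mul_mem (Q.inv_mem ha) (hx a ha), Set.mem_univ _⟩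
  | left u _ ih => exact key u _ (Or.inl rfl) ih
  | right u _ ih => exact key u _ (Or.inr rfl) ih


/-- `M w R = [R, R] * T w R` -/
def M (w : Word) (R : Subgroup G) : Subgroup G := ⁅R, R⁆ ⊔ T w R

theorem M_le (w : Word) (R : Subgroup G) : M w R ≤ R :=
  sup_le (commutator_le_self R) (T_le w R)

theorem T_mono (w : Word) {A R : Subgroup G} (h : A ≤ R) : T w A ≤ T w R :=
  closure_mono (Set.inter_subset_inter_left _ h)

theorem M_conj (w : Word) (Q R : Subgroup G) (n : G) (h : ∀ q ∈ Q, n * q * n⁻¹ ∈ R)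
    (t : G) (ht : t ∈ M w Q) : n * t * n⁻¹ ∈ M w R := by
  have h1 : (M w Q).map (MulAut.conj n).toMonoidHom ≤ M w R := by
    rw [M, Subgroup.map_sup, Subgroup.map_commutator, M]
    have hQR : Q.map (MulAut.conj n).toMonoidHom ≤ R := by
      rintro _ ⟨q, hq, rfl⟩
      exact h q hq
    refine sup_le ((commutator_mono hQR hQR).trans le_sup_left) (le_trans ?_ le_sup_right)
    rintro _ ⟨t, ht, rfl⟩
    exact T_conj w Q R n h t ht
  exact h1 ⟨t, ht, rfl⟩

/-- subgroup generated by the elements of order prime to `p` -/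
def K0 (p : ℕ) (G : Type*) [Group G] : Subgroup G := closure {g : G | (orderOf g).Coprime p}

instance K0_normal (p : ℕ) : (K0 p G).Normal := by
  constructor
  intro n hn g
  have h1 : (K0 p G).map (MulAut.conj g).toMonoidHom ≤ K0 p G := by
    rw [K0, MonoidHom.map_closure, closure_le]
    rintro _ ⟨q, hq, rfl⟩
    refine subset_closure ?_
    have : orderOf ((MulAut.conj g).toMonoidHom q) = orderOf q :=
      orderOf_injective _ (MulAut.conj g).injective q
    simp only [Set.mem_ofPred_eq] at hq ⊢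
    rw [this]
    exact hq
  exact h1 ⟨n, hn, rfl⟩

theorem K0_quot [Finite G] (p : ℕ) [hp : Fact p.Prime] : IsPGroup p (G ⧸ K0 p G) := by
  intro q
  obtain ⟨g, rfl⟩ := QuotientGroup.mk_surjective q
  have hpos : orderOf g ≠ 0 := (orderOf_pos g).ne'
  obtain ⟨k, m, hm, e⟩ := Nat.exists_eq_pow_mul_and_not_dvd hpos p hp.out.ne_one
  refine ⟨k, ?_⟩
  rw [← QuotientGroup.mk_pow, QuotientGroup.eq_one_iff]
  refine subset_closure ?_
  simp only [Set.mem_ofPred_eq]
  have h1 : orderOf (g ^ p ^ k) = m := by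
    rw [orderOf_pow_of_dvd (pow_ne_zero _ hp.out.ne_zero) (by rw [e]; exact dvd_mul_right _ _), e]
    exact Nat.mul_div_cancel_left m (pow_pos hp.out.pos k)
  rw [h1]
  exact (Nat.Coprime.symm ((Nat.Prime.coprime_iff_not_dvd hp.out).mpr hm))

theorem eq_top_of_sylow_of_pprime [Finite G] {p : ℕ} [hp : Fact p.Prime] (D : Subgroup G)
    (S : Sylow p G) (h1 : (S : Subgroup G) ≤ D) (h2 : ∀ x : G, (orderOf x).Coprime p → x ∈ D) :
    D = ⊤ := by
  have hK : K0 p G ≤ D := (closure_le _).mpr (fun x hx => h2 x hx)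
  have e1 : D.index ∣ (S : Subgroup G).index := index_dvd_of_le h1
  have e2 : D.index ∣ (K0 p G).index := index_dvd_of_le hK
  obtain ⟨n, hn⟩ := IsPGroup.iff_card.mp (K0_quot (G := G) p)
  have e3 : (K0 p G).index = p ^ n := hn
  have e4 : ¬ p ∣ (S : Subgroup G).index := S.not_dvd_index
  rw [e3] at e2
  obtain ⟨m, _, hm⟩ := (Nat.dvd_prime_pow hp.out).mp e2
  have : m = 0 := by
    by_contra hm0
    exact e4 ((dvd_pow_self p hm0).trans (hm ▸ e1))
  rw [this, pow_zero] at hm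
  exact index_eq_one.mp hm

theorem local_fusion [Finite G] {p : ℕ} [Fact p.Prime] (w : Word) (hw : IsLowerCentral w)
    (P : Sylow p G) (A : Subgroup G) (hA : A ≤ P) (S : Sylow p (normalizer (A : Set G)))
    (hS : (S : Subgroup (normalizer (A : Set G))).map (normalizer (A : Set G)).subtype ≤ P)
    (n : G) (hn : n ∈ normalizer (A : Set G)) (a : G) (ha : a ∈ A) :
    a⁻¹ * (n * a * n⁻¹) ∈ M w (P : Subgroup G) := by
  let N := normalizer (A : Set G)
  have hN : ∀ n : N, ∀ a ∈ A, (n : G) * a * (n : G)⁻¹ ∈ A := fun n a ha =>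
    (mem_normalizer_iff.mp n.2 a).mp ha
  have hN' : ∀ n : N, ∀ a ∈ A, (n : G)⁻¹ * a * (n : G) ∈ A := fun n a ha => by
    have := hN n⁻¹ a ha
    simpa using this
  let D : Subgroup N :=
    { carrier := {n | ∀ a ∈ A, a⁻¹ * ((n : G) * a * (n : G)⁻¹) ∈ M w (P : Subgroup G)}
      one_mem' := by
        intro a _
        simp [(M w (P : Subgroup G)).one_mem]
      mul_mem' := by
        intro m n hm hn a ha
        have h1 := hn a ha
        have h2 := hm _ (hN n a ha)
        have e : a⁻¹ * (((m * n : N) : G) * a * ((m * n : N) : G)⁻¹) =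
            (a⁻¹ * ((n : G) * a * (n : G)⁻¹)) * (((n : G) * a * (n : G)⁻¹)⁻¹ *
              ((m : G) * ((n : G) * a * (n : G)⁻¹) * (m : G)⁻¹)) := by
          rw [Subgroup.coe_mul]; group
        rw [e]
        exact mul_mem h1 h2
      inv_mem' := by
        intro n hn a ha
        have h1 := hn _ (hN' n a ha)
        have e : a⁻¹ * (((n⁻¹ : N) : G) * a * ((n⁻¹ : N) : G)⁻¹) =
            (((n : G)⁻¹ * a * (n : G))⁻¹ * ((n : G) * ((n : G)⁻¹ * a * (n : G)) * (n : G)⁻¹))⁻¹ := by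
          rw [Subgroup.coe_inv]; group
        rw [e]
        exact inv_mem h1 }
  have hD : D = ⊤ := by
    apply eq_top_of_sylow_of_pprime D S
    · intro s hs a ha
      have hsP : (s : G) ∈ (P : Subgroup G) := hS ⟨s, hs, rfl⟩
      have e : a⁻¹ * ((s : G) * a * (s : G)⁻¹) = ⁅a⁻¹, (s : G)⁆ := by
        rw [commutatorElement_def]; group
      rw [e]
      exact le_sup_left (a := ⁅(P : Subgroup G), (P : Subgroup G)⁆)
        (commutator_mem_commutator (inv_mem (hA ha)) hsP)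
    · intro x hx a ha
      have hAp : IsPGroup p A := P.2.to_le hA
      have h1 : (orderOf ((x : G)⁻¹)).Coprime p := by
        rw [orderOf_inv, Subgroup.orderOf_coe]
        exact hx
      have h2 := coprime_action w hw A hAp (x : G)⁻¹ h1 (fun q hq => by simpa using hN x q hq) a ha
      rw [inv_inv] at h2
      exact le_sup_right (a := ⁅(P : Subgroup G), (P : Subgroup G)⁆) (T_mono w hA h2)
  have : (⟨n, hn⟩ : N) ∈ D := by rw [hD]; exact mem_top _
  exact this a ha


theorem smul_sylow_mem {p : ℕ} {R S : Sylow p G} {g : G} (h : g • R = S) (r : G)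
    (hr : r ∈ (R : Subgroup G)) : g * r * g⁻¹ ∈ (S : Subgroup G) := by
  rw [← h, Sylow.coe_subgroup_smul]
  exact ⟨r, hr, rfl⟩

theorem exists_normalizer [Finite G] {p : ℕ} [Fact p.Prime] (R : Sylow p G) (A : Subgroup G)
    (hA : A ≤ R) (hne : ¬ (R : Subgroup G) ≤ A) :
    ∃ y ∈ (R : Subgroup G), y ∈ normalizer (A : Set G) ∧ y ∉ A := by
  have : Group.IsNilpotent R := R.2.isNilpotent
  have hlt : A.subgroupOf R < ⊤ := by
    rw [lt_top_iff_ne_top]
    intro h
    exact hne (subgroupOf_eq_top.mp h)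
  have h1 := Group.normalizerCondition_of_isNilpotent (G := R) (A.subgroupOf R) hlt
  obtain ⟨y, hy, hyA⟩ := SetLike.exists_of_lt h1
  refine ⟨y, y.2, ?_, fun h => hyA (mem_subgroupOf.mpr h)⟩
  rw [mem_normalizer_iff] at hy ⊢
  intro h
  constructor
  · intro hh
    have := (hy ⟨h, hA hh⟩).mp (mem_subgroupOf.mpr hh)
    exact mem_subgroupOf.mp this
  · intro hh
    have hhR : h ∈ (R : Subgroup G) := by
      have h2 : (y : G)⁻¹ * ((y : G) * h * (y : G)⁻¹) * (y : G) ∈ (R : Subgroup G) :=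
        mul_mem (mul_mem (inv_mem y.2) (hA hh)) y.2
      have e : (y : G)⁻¹ * ((y : G) * h * (y : G)⁻¹) * (y : G) = h := by group
      rwa [e] at h2
    have := (hy ⟨h, hhR⟩).mpr (mem_subgroupOf.mpr hh)
    exact mem_subgroupOf.mp this

theorem fusion_self [Finite G] {p : ℕ} [Fact p.Prime] (w : Word) (hw : IsLowerCentral w)
    (R : Sylow p G) (g : G) (hg : g • R = R) (a : G) (ha : a ∈ (R : Subgroup G)) :
    a⁻¹ * (g * a * g⁻¹) ∈ M w (R : Subgroup G) := by
  have hgn : g ∈ normalizer ((R : Subgroup G) : Set G) :=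
    Sylow.smul_eq_iff_mem_normalizer.mp hg
  refine local_fusion w hw R (R : Subgroup G) le_rfl
    (R.subtype (N := normalizer ((R : Subgroup G) : Set G)) le_normalizer) ?_ g hgn a ha
  rintro _ ⟨x, hx, rfl⟩
  exact hx

theorem card_lt_of [Finite G] (A B : Subgroup G) (h : A ≤ B) (y : G) (hy : y ∈ B) (hyA : y ∉ A) :
    Nat.card A < Nat.card B := by
  have h1 : (A : Set G) ⊂ (B : Set G) := by
    refine ⟨h, fun h2 => hyA (h2 hy)⟩
  exact Set.ncard_lt_ncard h1 (Set.toFinite _)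

theorem fusion [Finite G] {p : ℕ} [Fact p.Prime] (w : Word) (hw : IsLowerCentral w) :
    ∀ (n : ℕ) (R₁ R₂ : Sylow p G) (g : G), g • R₁ = R₂ →
      Nat.card G - Nat.card ((R₁ : Subgroup G) ⊓ R₂ : Subgroup G) < n →
      ∀ a ∈ (R₁ : Subgroup G), a ∈ (R₂ : Subgroup G) →
        a⁻¹ * (g * a * g⁻¹) ∈ M w (R₂ : Subgroup G) := by
  intro n
  induction n with
  | zero => intro R₁ R₂ g hg hn; omega
  | succ n ih =>
    intro R₁ R₂ g hg hn a ha1 ha2
    by_cases hle : (R₁ : Subgroup G) ≤ R₂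
    · have hRR : R₁ = R₂ := Sylow.ext (R₁.3 R₂.2 hle).symm
      subst hRR
      exact fusion_self w hw R₁ g hg a ha1
    have hle2 : ¬ (R₂ : Subgroup G) ≤ R₁ := fun h => hle (le_of_eq (R₂.3 R₁.2 h))
    set A : Subgroup G := (R₁ : Subgroup G) ⊓ R₂ with hAdef
    have hA1 : A ≤ R₁ := inf_le_left
    have hA2 : A ≤ R₂ := inf_le_right
    have haA : a ∈ A := ⟨ha1, ha2⟩
    obtain ⟨y₁, hy₁, hy₁N, hy₁A⟩ := exists_normalizer R₁ A hA1 (fun h => hle (h.trans hA2))
    obtain ⟨y₂, hy₂, hy₂N, hy₂A⟩ := exists_normalizer R₂ A hA2 (fun h => hle2 (h.trans hA1))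
    let N := normalizer (A : Set G)
    have hAN : A ≤ N := le_normalizer
    -- Sylow subgroups of N
    have hB1 : IsPGroup p ((R₁ : Subgroup G).subgroupOf N) := R₁.2.comap_subtype
    have hB2 : IsPGroup p ((R₂ : Subgroup G).subgroupOf N) := R₂.2.comap_subtype
    obtain ⟨S₁, hS₁⟩ := hB1.exists_le_sylow
    obtain ⟨S₂, hS₂⟩ := hB2.exists_le_sylow
    obtain ⟨P₁, hP₁⟩ := (S₁.2.map N.subtype).exists_le_sylow
    obtain ⟨n₀, hn₀⟩ := MulAction.exists_smul_eq N S₁ S₂
    let P₂ : Sylow p G := (n₀ : G) • P₁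
    have hP₂ : (S₂ : Subgroup N).map N.subtype ≤ P₂ := by
      rintro _ ⟨s, hs, rfl⟩
      have hs' : s ∈ ((n₀ • S₁ : Sylow p N) : Subgroup N) := by rw [hn₀]; exact hs
      rw [Sylow.coe_subgroup_smul] at hs'
      obtain ⟨r, hr, hrs⟩ := hs'
      have h1 : ((r : N) : G) ∈ (P₁ : Subgroup G) := hP₁ ⟨r, hr, rfl⟩
      have h2 := smul_sylow_mem (R := P₁) (S := P₂) (g := (n₀ : G)) rfl _ h1
      have h3 : s = n₀ * r * n₀⁻¹ := hrs.symm
      rw [h3]
      simpa using h2
    have hAP1 : A ≤ P₁ := by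
      intro x hx
      exact hP₁ ⟨⟨x, hAN hx⟩, hS₁ (mem_subgroupOf.mpr (hA1 hx)), rfl⟩
    have hAP2 : A ≤ P₂ := by
      intro x hx
      exact hP₂ ⟨⟨x, hAN hx⟩, hS₂ (mem_subgroupOf.mpr (hA2 hx)), rfl⟩
    have hy₁P : y₁ ∈ (P₁ : Subgroup G) := hP₁ ⟨⟨y₁, hy₁N⟩, hS₁ (mem_subgroupOf.mpr hy₁), rfl⟩
    have hy₂P : y₂ ∈ (P₂ : Subgroup G) := hP₂ ⟨⟨y₂, hy₂N⟩, hS₂ (mem_subgroupOf.mpr hy₂), rfl⟩
    have hc1 : Nat.card A < Nat.card ((R₁ : Subgroup G) ⊓ P₁ : Subgroup G) :=
      card_lt_of A _ (le_inf hA1 hAP1) y₁ ⟨hy₁, hy₁P⟩ hy₁A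
    have hc2 : Nat.card A < Nat.card ((P₂ : Subgroup G) ⊓ R₂ : Subgroup G) :=
      card_lt_of A _ (le_inf hAP2 hA2) y₂ ⟨hy₂P, hy₂⟩ hy₂A
    have hcG1 : Nat.card ((R₁ : Subgroup G) ⊓ P₁ : Subgroup G) ≤ Nat.card G :=
      Subgroup.card_le_card_group _
    have hcG2 : Nat.card ((P₂ : Subgroup G) ⊓ R₂ : Subgroup G) ≤ Nat.card G :=
      Subgroup.card_le_card_group _
    obtain ⟨g₁, hg₁⟩ := MulAction.exists_smul_eq G R₁ P₁
    obtain ⟨g₃, hg₃⟩ := MulAction.exists_smul_eq G P₂ R₂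
    have e1 := ih R₁ P₁ g₁ hg₁ (by omega) a ha1 (hAP1 haA)
    have e3 := ih P₂ R₂ g₃ hg₃ (by omega) a (hAP2 haA) ha2
    have e2 : a⁻¹ * ((n₀ : G) * a * (n₀ : G)⁻¹) ∈ M w (P₂ : Subgroup G) := by
      have h1 := local_fusion w hw P₁ A hAP1 S₁ hP₁ ((n₀ : G)⁻¹) (inv_mem n₀.2) a haA
      have h2 := M_conj w (P₁ : Subgroup G) (P₂ : Subgroup G) (n₀ : G)
        (smul_sylow_mem (R := P₁) (S := P₂) (g := (n₀ : G)) rfl) _ h1
      have h3 := inv_mem h2
      have e : ((n₀ : G) * (a⁻¹ * ((n₀ : G)⁻¹ * a * ((n₀ : G)⁻¹)⁻¹)) * (n₀ : G)⁻¹)⁻¹ =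
          a⁻¹ * ((n₀ : G) * a * (n₀ : G)⁻¹) := by group
      rwa [e] at h3
    -- composite
    set g' : G := g₃ * (n₀ : G) * g₁ with hg'
    have hg'R : g' • R₁ = R₂ := by
      rw [hg', mul_smul, mul_smul, hg₁]
      exact hg₃
    have c1 : a⁻¹ * (g' * a * g'⁻¹) ∈ M w (R₂ : Subgroup G) := by
      have f1 := M_conj w (P₁ : Subgroup G) (P₂ : Subgroup G) (n₀ : G)
        (smul_sylow_mem (R := P₁) (S := P₂) (g := (n₀ : G)) rfl) _ e1
      have f2 := M_conj w (P₂ : Subgroup G) (R₂ : Subgroup G) g₃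
        (smul_sylow_mem hg₃) _ (mul_mem e2 f1)
      have e : a⁻¹ * (g' * a * g'⁻¹) = (a⁻¹ * (g₃ * a * g₃⁻¹)) *
          (g₃ * ((a⁻¹ * ((n₀ : G) * a * (n₀ : G)⁻¹)) *
            ((n₀ : G) * (a⁻¹ * (g₁ * a * g₁⁻¹)) * (n₀ : G)⁻¹)) * g₃⁻¹) := by
        rw [hg']; group
      rw [e]
      exact mul_mem e3 f2
    have hz : (g'⁻¹ * g) • R₁ = R₁ := by
      rw [mul_smul, hg, inv_smul_eq_iff]
      exact hg'R.symm
    have d1 := fusion_self w hw R₁ (g'⁻¹ * g) hz a ha1
    have d2 := M_conj w (R₁ : Subgroup G) (R₂ : Subgroup G) g' (smul_sylow_mem hg'R) _ d1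
    have e : a⁻¹ * (g * a * g⁻¹) = (a⁻¹ * (g' * a * g'⁻¹)) *
        (g' * (a⁻¹ * ((g'⁻¹ * g) * a * (g'⁻¹ * g)⁻¹)) * g'⁻¹) := by group
    rw [e]
    exact mul_mem c1 d2

theorem sylow_le_commutator [Finite G] {p : ℕ} [Fact p.Prime] (hG : K0 p G = ⊤)
    (P : Sylow p G) : (P : Subgroup G) ≤ _root_.commutator G := by
  intro a ha
  -- every element of the abelianization has order prime to `p`
  have h1 : ∀ g : G, ∃ n : ℕ, n.Coprime p ∧ (Abelianization.of g) ^ n = 1 := by
    intro g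
    have hg : g ∈ K0 p G := by rw [hG]; exact mem_top _
    rw [K0] at hg
    induction hg using closure_induction with
    | mem x hx =>
      refine ⟨orderOf x, hx, ?_⟩
      rw [← map_pow, pow_orderOf_eq_one, map_one]
    | one => exact ⟨1, by simp, by simp⟩
    | mul x y _ _ hx hy =>
      obtain ⟨m, hm, em⟩ := hx
      obtain ⟨n, hn, en⟩ := hy
      refine ⟨m * n, Nat.Coprime.mul_left hm hn, ?_⟩
      rw [map_mul, mul_pow, pow_mul, em, one_pow, mul_comm m n, pow_mul, en, one_pow, one_mul]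
    | inv x _ hx =>
      obtain ⟨m, hm, em⟩ := hx
      exact ⟨m, hm, by rw [map_inv, inv_pow, em, inv_one]⟩
  obtain ⟨n, hn, en⟩ := h1 a
  obtain ⟨k, hk⟩ := P.2 ⟨a, ha⟩
  have hk' : a ^ p ^ k = 1 := by
    have := congrArg Subtype.val hk
    simpa using this
  have e2 : (Abelianization.of a) ^ p ^ k = 1 := by rw [← map_pow, hk', map_one]
  have e3 : Abelianization.of a = 1 := by
    have hd1 := orderOf_dvd_of_pow_eq_one en
    have hd2 := orderOf_dvd_of_pow_eq_one e2
    have := Nat.Coprime.eq_one_of_dvd (Nat.Coprime.coprime_dvd_left hd1 (hn.pow_right k)) hd2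
    exact orderOf_eq_one_iff.mp this
  rw [← Abelianization.ker_of G]
  exact e3

theorem theoremA [Finite G] {p : ℕ} [Fact p.Prime] (w : Word) (hw : IsLowerCentral w)
    (hG : K0 p G = ⊤) (P : Sylow p G) : T w (P : Subgroup G) = P := by
  refine le_antisymm (T_le w _) ?_
  have h1 : (P : Subgroup G) ≤ M w (P : Subgroup G) := by
    have h2 := commutator_inf_eq_focalSubgroup P
    have h3 : (P : Subgroup G) ≤ focalSubgroup (P : Subgroup G) := by
      rw [← h2]
      exact le_inf (sylow_le_commutator hG P) le_rfl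
    refine h3.trans ?_
    rw [focalSubgroup_def, closure_le]
    rintro _ ⟨hg, x, hx, u, rfl⟩
    have hb : u * x * u⁻¹ ∈ (P : Subgroup G) := by
      have h4 : (x⁻¹ * ⁅x, u⁆)⁻¹ ∈ (P : Subgroup G) := inv_mem (mul_mem (inv_mem hx) hg)
      have e : (x⁻¹ * ⁅x, u⁆)⁻¹ = u * x * u⁻¹ := by rw [commutatorElement_def]; group
      rwa [e] at h4
    have h5 := fusion w hw (Nat.card G + 1) (u • P) P u⁻¹ (by simp) (by omega)
      (u * x * u⁻¹) (by
        exact smul_sylow_mem (R := P) (S := u • P) (g := u) rfl x hx) hb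
    have h6 := M_conj w (P : Subgroup G) (P : Subgroup G) x
      (fun q hq => mul_mem (mul_mem hx hq) (inv_mem hx)) _ h5
    have e : x * ((u * x * u⁻¹)⁻¹ * (u⁻¹ * (u * x * u⁻¹) * (u⁻¹)⁻¹)) * x⁻¹ = ⁅x, u⁆ := by
      rw [commutatorElement_def]; group
    rwa [e] at h6
  -- `P = [P,P] T` implies `P = T`
  let T' : Subgroup P := (T w (P : Subgroup G)).subgroupOf P
  have hT' : T'.Normal := by
    constructor
    intro n hn g
    rw [mem_subgroupOf] at hn ⊢
    exact T_conj w (P : Subgroup G) (P : Subgroup G) (g : G)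
      (fun q hq => mul_mem (mul_mem g.2 hq) (inv_mem g.2)) _ hn
  have h7 : _root_.commutator P ⊔ T' = ⊤ := by
    rw [eq_top_iff]
    intro y _
    have hy := h1 y.2
    have h8 : (_root_.commutator P ⊔ T').map (P : Subgroup G).subtype = M w (P : Subgroup G) := by
      rw [Subgroup.map_sup, M]
      congr 1
      · exact map_subtype_commutator _
      · exact Subgroup.map_subgroupOf_eq_of_le (T_le w _)
    rw [← h8] at hy
    obtain ⟨z, hz, e⟩ := hy
    have : z = y := Subtype.ext e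
    rwa [← this]
  have h9 : T' = ⊤ := by
    by_contra hne
    have : Group.IsNilpotent P := P.2.isNilpotent
    have : Group.IsNilpotent (P ⧸ T') := Group.nilpotent_of_surjective _ (QuotientGroup.mk'_surjective T')
    have hnt : Nontrivial (P ⧸ T') := by
      rwa [QuotientGroup.nontrivial_iff]
    have h10 := Group.IsSolvable.commutator_lt_top_of_nontrivial (P ⧸ T')
    apply h10.ne
    have h11 : (_root_.commutator P).map (QuotientGroup.mk' T') = _root_.commutator (P ⧸ T') := by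
      rw [_root_.commutator_def, Subgroup.map_commutator, ← MonoidHom.range_eq_map,
        MonoidHom.range_eq_top.mpr (QuotientGroup.mk'_surjective T'), _root_.commutator_def]
    rw [← h11]
    have h12 := congrArg (Subgroup.map (QuotientGroup.mk' T')) h7
    rw [Subgroup.map_sup] at h12
    have h13 : T'.map (QuotientGroup.mk' T') = ⊥ := by
      rw [Subgroup.map_eq_bot_iff, QuotientGroup.ker_mk']
    rw [h13, sup_bot_eq] at h12
    rw [h12, ← MonoidHom.range_eq_map, MonoidHom.range_eq_top.mpr (QuotientGroup.mk'_surjective T')]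
  exact subgroupOf_eq_top.mp h9


/-- `w`-values with all entries in `R` -/
def valuesIn (R : Subgroup G) : Word → Set G
  | .var => R
  | .comm u v => {g | ∃ a ∈ valuesIn R u, ∃ b ∈ valuesIn R v, g = a⁻¹ * b⁻¹ * a * b}

theorem valuesIn_sub (R : Subgroup G) (w : Word) :
    ∀ a ∈ valuesIn R w, a ∈ R ∧ a ∈ w.values G := by
  induction w with
  | var => intro a ha; exact ⟨ha, Set.mem_univ _⟩
  | comm u v hu hv =>
    rintro g ⟨a, ha, b, hb, rfl⟩
    have h1 := hu a ha
    have h2 := hv b hb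
    exact ⟨mul_mem (mul_mem (mul_mem (inv_mem h1.1) (inv_mem h2.1)) h1.1) h2.1,
      a, h1.2, b, h2.2, rfl⟩

theorem values_mod (K R : Subgroup G) [K.Normal]
    (h : ∀ g : G, ∃ r ∈ R, (QuotientGroup.mk g : G ⧸ K) = QuotientGroup.mk r) (w : Word) :
    ∀ a ∈ w.values G, ∃ c ∈ valuesIn R w, (QuotientGroup.mk a : G ⧸ K) = QuotientGroup.mk c := by
  induction w with
  | var => intro a _; exact h a
  | comm u v hu hv =>
    rintro g ⟨a, ha, b, hb, rfl⟩
    obtain ⟨a', ha', ea⟩ := hu a ha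
    obtain ⟨b', hb', eb⟩ := hv b hb
    refine ⟨a'⁻¹ * b'⁻¹ * a' * b', ⟨a', ha', b', hb', rfl⟩, ?_⟩
    simp only [QuotientGroup.mk_mul, QuotientGroup.mk_inv, ea, eb]

theorem K0_K0 [Finite G] (p : ℕ) : K0 p (K0 p G) = ⊤ := by
  rw [eq_top_iff]
  rintro ⟨y, hy⟩ _
  have h1 : K0 p G ≤ (K0 p (K0 p G)).map (K0 p G).subtype := by
    conv_lhs => rw [K0]
    rw [closure_le]
    intro x hx
    have hxK : x ∈ K0 p G := Subgroup.subset_closure hx
    refine ⟨⟨x, hxK⟩, Subgroup.subset_closure ?_, rfl⟩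
    simp only [Set.mem_ofPred_eq] at hx ⊢
    rwa [Subgroup.orderOf_mk]
  obtain ⟨z, hz, e⟩ := h1 hy
  have : z = ⟨y, hy⟩ := Subtype.ext e
  rwa [← this]

theorem inf_K0 [Finite G] {p : ℕ} [Fact p.Prime] (w : Word) (hw : IsLowerCentral w)
    (R : Sylow p G) (k : G) (hk : k ∈ K0 p G) (hkR : k ∈ (R : Subgroup G)) :
    k ∈ T w (R : Subgroup G) := by
  let Q : Sylow p (K0 p G) := default
  have hQ := theoremA w hw (K0_K0 p) Q
  obtain ⟨R₀, hR₀⟩ := Q.exists_comap_subtype_eq
  obtain ⟨g, hg⟩ := MulAction.exists_smul_eq G R R₀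
  have h1 : g * k * g⁻¹ ∈ (R₀ : Subgroup G) := smul_sylow_mem hg k hkR
  have h2 : g * k * g⁻¹ ∈ K0 p G := (K0_normal p).conj_mem k hk g
  have h3 : (⟨g * k * g⁻¹, h2⟩ : K0 p G) ∈ (Q : Subgroup (K0 p G)) := by
    rw [← hR₀]
    exact h1
  rw [← hQ] at h3
  have h4 : (T w (Q : Subgroup (K0 p G))).map (K0 p G).subtype ≤ T w (R₀ : Subgroup G) := by
    rw [T, MonoidHom.map_closure, closure_le]
    rintro _ ⟨q, ⟨hq, hqv⟩, rfl⟩
    refine subset_closure ⟨?_, values_map _ w q hqv⟩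
    rw [← hR₀] at hq
    exact hq
  have h5 : g * k * g⁻¹ ∈ T w (R₀ : Subgroup G) := h4 ⟨_, h3, rfl⟩
  have h6 := T_conj w (R₀ : Subgroup G) (R : Subgroup G) g⁻¹ (fun q hq => by
    have : g⁻¹ • R₀ = R := by rw [← hg, inv_smul_smul]
    exact smul_sylow_mem this q hq) _ h5
  have e : g⁻¹ * (g * k * g⁻¹) * (g⁻¹)⁻¹ = k := by group
  rwa [e] at h6

/-- Every Sylow subgroup of the verbal subgroup of a lower central word is generated by
values of the word. -/
theorem result (G : Type*) [Group G] [Finite G] (p : ℕ) [Fact p.Prime] (w : Word)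
    (hw : IsLowerCentral w) (P : Sylow p (w.verbal G)) :
    Subgroup.closure
      ((((P : Subgroup (w.verbal G)).map (w.verbal G).subtype : Subgroup G) : Set G) ∩
        w.values G) = (P : Subgroup (w.verbal G)).map (w.verbal G).subtype := by
  apply le_antisymm
  · rw [closure_le]; exact Set.inter_subset_left
  rintro _ ⟨⟨z, hzV⟩, hz, rfl⟩
  obtain ⟨R, hR⟩ := P.exists_comap_subtype_eq
  have hzR : z ∈ (R : Subgroup G) := by
    rw [← hR] at hz
    exact hz
  -- reduce modulo `K0`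
  have hmod : ∀ g : G, ∃ r ∈ (R : Subgroup G),
      (QuotientGroup.mk g : G ⧸ K0 p G) = QuotientGroup.mk r := by
    intro g
    have h1 : (R.mapSurjective (QuotientGroup.mk'_surjective (K0 p G)) : Subgroup (G ⧸ K0 p G)) = ⊤ := by
      exact ((R.mapSurjective (QuotientGroup.mk'_surjective (K0 p G))).3
        ((K0_quot (G := G) p).to_subgroup ⊤) le_top).symm
    have h2 : (QuotientGroup.mk g : G ⧸ K0 p G) ∈
        (R.mapSurjective (QuotientGroup.mk'_surjective (K0 p G)) : Subgroup (G ⧸ K0 p G)) := by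
      rw [h1]; exact mem_top _
    rw [Sylow.coe_mapSurjective] at h2
    obtain ⟨r, hr, e⟩ := h2
    exact ⟨r, hr, e.symm⟩
  have h2 : (w.verbal G).map (QuotientGroup.mk' (K0 p G)) ≤
      (closure (valuesIn (R : Subgroup G) w)).map (QuotientGroup.mk' (K0 p G)) := by
    rw [Word.verbal, MonoidHom.map_closure, closure_le]
    rintro _ ⟨a, ha, rfl⟩
    obtain ⟨c, hc, e⟩ := values_mod (K0 p G) (R : Subgroup G) hmod w a ha
    exact ⟨c, subset_closure hc, e.symm⟩
  obtain ⟨c, hc, e⟩ := h2 ⟨z, hzV, rfl⟩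
  have hcT : c ∈ T w (R : Subgroup G) := by
    have : closure (valuesIn (R : Subgroup G) w) ≤ T w (R : Subgroup G) :=
      closure_mono (fun a ha => valuesIn_sub _ w a ha)
    exact this hc
  have hk : z * c⁻¹ ∈ K0 p G := by
    have e' : (QuotientGroup.mk c : G ⧸ K0 p G) = QuotientGroup.mk z := e
    rw [← QuotientGroup.eq_one_iff, QuotientGroup.mk_mul, QuotientGroup.mk_inv, e', mul_inv_cancel]
  have hkT := inf_K0 w hw R (z * c⁻¹) hk (mul_mem hzR (inv_mem (T_le w _ hcT)))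
  have hzT : z ∈ T w (R : Subgroup G) := by
    have := mul_mem hkT hcT
    rwa [inv_mul_cancel_right] at this
  have h3 : T w (R : Subgroup G) ≤ Subgroup.closure
      ((((P : Subgroup (w.verbal G)).map (w.verbal G).subtype : Subgroup G) : Set G) ∩
        w.values G) := by
    apply Subgroup.closure_mono
    rintro a ⟨ha, hav⟩
    refine ⟨⟨⟨a, subset_closure hav⟩, ?_, rfl⟩, hav⟩
    rw [← hR]
    exact ha
  exact h3 hzT

end Pool.Agent.Work.MP_8aaf67_al.Kept.LowerCentralWords
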