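import Pool.Agent.Work.MP_8aaf67_al.SR.Last

/-!
# Sylow subgroups of verbal subgroups: a criterion in terms of the simple sections

`[a, b] = a b a⁻¹ b⁻¹`. A multilinear commutator word has a shape: a variable, or `[u, v]` with
shapes `u`, `v`.
-/

set_option autoImplicit false

namespace Pool.Agent.Results.MP_8aaf67_al.SimpleSectionCriterion

open Subgroup
open scoped commutatorElement

/-- The shape of a multilinear commutator word. -/
inductive Shape : Type
  | var : Shape
  | comm (u v : Shape) : Shape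

/-- `w` is a multilinear commutator word in the variables `A`, of shape `τ`. -/
inductive IsML : FreeGroup ℕ → Finset ℕ → Shape → Prop
  | var (i : ℕ) : IsML (FreeGroup.of i) {i} .var
  | comm (u v : FreeGroup ℕ) (B C : Finset ℕ) (σ τ : Shape) : IsML u B σ → IsML v C τ →
      Disjoint B C → IsML (u * v * u⁻¹ * v⁻¹) (B ∪ C) (.comm σ τ)

/-- `GV T τ t`: `t` is obtained along the shape `τ` by commutators of generating pairs of `T`. -/
inductive GV (T : Type) [Group T] : Shape → T → Prop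
  | var (t : T) : GV T .var t
  | comm (u v : Shape) (a b : T) : GV T u a → GV T v b → closure {a, b} = ⊤ →
      GV T (.comm u v) ⁅a, b⁆

/-- `M = [M, U] + C_M(R)` for all finite irreducible `T`-modules `M` such that the prime divisors
of `|M|` are different from `p` and divide `|T|`. -/
def Fil (p : ℕ) {T : Type} [Group T] (R U : Subgroup T) : Prop :=
  ∀ (M : Type) [AddCommGroup M] [Finite M] [DistribMulAction T M], ¬ p ∣ Nat.card M →
    (∀ r : ℕ, r.Prime → r ∣ Nat.card M → r ∣ Nat.card T) →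
    (∀ N : AddSubgroup M, (∀ g : T, ∀ x ∈ N, g • x ∈ N) → N = ⊥ ∨ N = ⊤) →
    ∀ m : M, ∃ m₁ ∈ AddSubgroup.closure {y : M | ∃ g ∈ U, ∃ x : M, y = g • x - x},
      ∃ m₂ : M, (∀ r ∈ R, r • m₂ = m₂) ∧ m = m₁ + m₂

/-- `AD p T τ t z`: `t` is admissible for the shape `τ` and the element `z`. -/
inductive AD (p : ℕ) (T : Type) [Group T] : Shape → T → T → Prop
  | var (t z : T) : AD p T .var t z
  | comm (u v : Shape) (a b z : T) : GV T u a → GV T v b →
      Fil p (zpowers z) (closure {a, b}) → AD p T (.comm u v) ⁅a, b⁆ z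

/-- `VS p P τ x`: `x` is obtained along the shape `τ` by commutators, starting in `P` and staying
in `P`, the other entries being admissible. -/
inductive VS (p : ℕ) {T : Type} [Group T] (P : Subgroup T) : Shape → T → Prop
  | var (x : T) : x ∈ P → VS p P .var x
  | left (u v : Shape) (y t : T) : VS p P u y → t * y * t⁻¹ ∈ P → AD p T v t (t * y * t⁻¹) →
      VS p P (.comm u v) ⁅y, t⁆
  | right (u v : Shape) (y t : T) : VS p P v y → t * y * t⁻¹ ∈ P → AD p T u t (t * y * t⁻¹) →
      VS p P (.comm u v) ⁅t, y⁆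

/-- The verbal subgroup `w(Y)` of the subgroup `Y`. -/
def Verb (w : FreeGroup ℕ) {T : Type} [Group T] (Y : Subgroup T) : Subgroup T :=
  closure {x : T | ∃ g : ℕ → T, (∀ i, g i ∈ Y) ∧ (FreeGroup.lift g : FreeGroup ℕ →* T) w = x}

/-- Three kinds of elements of the `p`-subgroup `P` of `T`. -/
def Ctl (p : ℕ) (w : FreeGroup ℕ) (τ : Shape) {T : Type} [Group T] (P : Subgroup T) : Set T :=
  {x | (∃ Y Q : Subgroup T, Y ≠ ⊤ ∧ Q ≤ Y ∧ Q ≤ P ∧ ¬ p ∣ Q.relIndex Y ∧ x ∈ Q ∧
      x ∈ Verb w Y) ∨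
    (∃ R : Subgroup T, R ≤ P ∧ x ∈ ⁅R, Verb w (normalizer (R : Set T))⁆) ∨ VS p P τ x}

/-! ## Comparison with the definitions of the proof -/

namespace Shape

/-- Translation. -/
def toMW : Shape → Pool.Agent.Work.MP_8aaf67_al.SR.MW
  | .var => .var
  | .comm u v => .comm u.toMW v.toMW

end Shape

theorem IsML.values {w : FreeGroup ℕ} {A : Finset ℕ} {τ : Shape} (h : IsML w A τ) :
    (∀ (G : Type) [Group G] (g g' : ℕ → G), (∀ i ∈ A, g i = g' i) →
      (FreeGroup.lift g : FreeGroup ℕ →* G) w = (FreeGroup.lift g' : FreeGroup ℕ →* G) w) ∧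
    ∀ (G : Type) [Group G], Pool.Agent.Work.MP_8aaf67_al.SR.wv G w =
      Pool.Agent.Work.MP_8aaf67_al.SR.val G τ.toMW := by
  induction h with
  | var i =>
    refine ⟨?_, ?_⟩
    · intro G _ g g' hg
      simpa using hg i (Finset.mem_singleton_self i)
    · intro G _
      ext x
      refine ⟨fun _ => Set.mem_univ _, fun _ => ⟨fun _ => x, ?_⟩⟩
      simp
  | comm u v B C σ τ _ _ hBC hu hv =>
    obtain ⟨hu1, hu2⟩ := hu
    obtain ⟨hv1, hv2⟩ := hv
    have key : ∀ (G : Type) [Group G] (g : ℕ → G),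
        (FreeGroup.lift g : FreeGroup ℕ →* G) (u * v * u⁻¹ * v⁻¹) =
        ⁅(FreeGroup.lift g : FreeGroup ℕ →* G) u, (FreeGroup.lift g : FreeGroup ℕ →* G) v⁆ := by
      intro G _ g
      rw [commutatorElement_def, map_mul, map_mul, map_mul, map_inv, map_inv]
    refine ⟨?_, ?_⟩
    · intro G _ g g' hg
      rw [key, key, hu1 G g g' fun i hi => hg i (Finset.mem_union_left C hi),
        hv1 G g g' fun i hi => hg i (Finset.mem_union_right B hi)]
    · intro G _
      ext x
      constructor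
      · rintro ⟨g, hg⟩
        rw [key] at hg
        refine ⟨_, ?_, _, ?_, hg.symm⟩
        · rw [← hu2 G]; exact ⟨g, rfl⟩
        · rw [← hv2 G]; exact ⟨g, rfl⟩
      · rintro ⟨a, ha, b, hb, rfl⟩
        rw [← hu2 G] at ha
        rw [← hv2 G] at hb
        obtain ⟨g1, rfl⟩ := ha
        obtain ⟨g2, rfl⟩ := hb
        classical
        refine ⟨fun i => if i ∈ B then g1 i else g2 i, ?_⟩
        rw [key]
        have h1 : (FreeGroup.lift (fun i => if i ∈ B then g1 i else g2 i) : FreeGroup ℕ →* G) u =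
            (FreeGroup.lift g1 : FreeGroup ℕ →* G) u := hu1 G _ _ fun i hi => if_pos hi
        have h2 : (FreeGroup.lift (fun i => if i ∈ B then g1 i else g2 i) : FreeGroup ℕ →* G) v =
            (FreeGroup.lift g2 : FreeGroup ℕ →* G) v := hv1 G _ _ fun i hi =>
          if_neg fun hi' => Finset.disjoint_left.1 hBC hi' hi
        rw [h1, h2]

section compare

variable {T : Type} [Group T]

theorem gv_iff (τ : Shape) (t : T) (h : GV T τ t) :
    t ∈ Pool.Agent.Work.MP_8aaf67_al.SR.GV T τ.toMW := by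
  induction h with
  | var t => exact Set.mem_univ _
  | comm u v a b _ _ hab ha hb => exact ⟨a, ha, b, hb, hab, rfl⟩

theorem ad_iff (p : ℕ) (τ : Shape) (t z : T) (h : AD p T τ t z) :
    Pool.Agent.Work.MP_8aaf67_al.SR.AD p T τ.toMW t z := by
  cases h with
  | var => exact trivial
  | comm u v a b _ ha hb hF => exact ⟨a, gv_iff u a ha, b, gv_iff v b hb, rfl, hF⟩

theorem vs_iff (p : ℕ) (P : Subgroup T) (τ : Shape) (x : T) (h : VS p P τ x) :
    x ∈ Pool.Agent.Work.MP_8aaf67_al.SR.VS p P τ.toMW := by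
  induction h with
  | var x hx => exact hx
  | left u v y t _ h1 h2 hy => exact Or.inl ⟨y, hy, t, h1, ad_iff p v _ _ h2, rfl⟩
  | right u v y t _ h1 h2 hy => exact Or.inr ⟨y, hy, t, h1, ad_iff p u _ _ h2, rfl⟩

theorem verb_eq {w : FreeGroup ℕ} {A : Finset ℕ} {τ : Shape} (h : IsML w A τ) (Y : Subgroup T) :
    Verb w Y = (Pool.Agent.Work.MP_8aaf67_al.SR.ver Y τ.toMW).map Y.subtype := by
  rw [Verb, Pool.Agent.Work.MP_8aaf67_al.SR.ver, MonoidHom.map_closure, ← h.values.2 Y]
  congr 1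
  ext x
  constructor
  · rintro ⟨g, hg, rfl⟩
    refine ⟨_, ⟨fun i => (⟨g i, hg i⟩ : Y), rfl⟩, ?_⟩
    have h1 : (FreeGroup.lift g : FreeGroup ℕ →* T) =
        Y.subtype.comp (FreeGroup.lift fun i => (⟨g i, hg i⟩ : Y)) := by
      ext i; simp
    rw [h1]; rfl
  · rintro ⟨_, ⟨g, rfl⟩, rfl⟩
    refine ⟨fun i => g i, fun i => (g i).2, ?_⟩
    have h1 : (FreeGroup.lift (fun i => (g i : T)) : FreeGroup ℕ →* T) =
        Y.subtype.comp (FreeGroup.lift g) := by
      ext i; simp
    rw [h1]; rfl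

theorem ctl_sub (p : ℕ) {w : FreeGroup ℕ} {A : Finset ℕ} {τ : Shape} (h : IsML w A τ)
    (P : Subgroup T) : Ctl p w τ P ⊆ Pool.Agent.Work.MP_8aaf67_al.SR.GS p τ.toMW P := by
  rintro x (⟨Y, Q, h1, h2, h3, h4, h5, h6⟩ | ⟨R, h1, h2⟩ | h1)
  · rw [verb_eq h] at h6
    exact Or.inl ⟨Y, Q, h1, h2, h3, h4, h5, h6⟩
  · rw [verb_eq h] at h2
    exact Or.inr (Or.inl ⟨R, h1, h2⟩)
  · exact Or.inr (Or.inr (vs_iff p P τ x h1))

end compare

/-- If for all nonabelian simple sections `T` of `G` of order divisible by `p` the Sylow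
`p`-subgroups `P` of `T` are generated by the sets `Ctl p w τ P`, then the Sylow `p`-subgroups of
`w(G)` are generated by `w`-values. -/
theorem result (w : FreeGroup ℕ) (A : Finset ℕ) (τ : Shape) (hw : IsML w A τ)
    (G : Type) [Group G] [Finite G] (p : ℕ) (hp : p.Prime)
    (hG : ∀ (K : Subgroup G) (T : Type) [Group T] (f : K →* T), Function.Surjective f →
      IsSimpleGroup T → (∃ x y : T, x * y ≠ y * x) → p ∣ Nat.card T →
      ∀ P : Sylow p T, (P : Subgroup T) ≤ closure (Ctl p w τ (P : Subgroup T))) :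
    ∀ H : Subgroup G,
      H = Subgroup.closure
            {x : G | ∃ g : ℕ → G, (FreeGroup.lift g : FreeGroup ℕ →* G) w = x} →
      ∀ P : Sylow p H,
        Subgroup.map H.subtype (P : Subgroup H) =
          Subgroup.closure
            {x : G | x ∈ Subgroup.map H.subtype (P : Subgroup H) ∧
              ∃ g : ℕ → G, (FreeGroup.lift g : FreeGroup ℕ →* G) w = x} := by
  have hp' : Fact p.Prime := ⟨hp⟩
  exact Pool.Agent.Work.MP_8aaf67_al.SR.sylgen_of_good (hw.values.2 G)
    (Pool.Agent.Work.MP_8aaf67_al.SR.strong_all τ.toMW G fun K T _ f hf h1 h2 h3 P =>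
      (hG K T f hf h1 h2 h3 P).trans (Subgroup.closure_mono (ctl_sub p hw _)))

end Pool.Agent.Results.MP_8aaf67_al.SimpleSectionCriterion
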